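import Pool.Agent.P8H14.GL.Stm

/-!
# Project GL, packages GVB and GMAJ (helper5)
-/

set_option autoImplicit false

namespace Pool.Agent.P8H5.GL

open Finset Filter Topology
open Pool.Agent.P8H14.CF (e rr pr)
open Pool.Agent.P8H14.GL

theorem norm_e (x : ℝ) : ‖e x‖ = 1 := by
  unfold e
  rw [show (2 * Real.pi * x * Complex.I : ℂ) = ((2 * Real.pi * x : ℝ) : ℂ) * Complex.I by push_cast; ring]
  exact Complex.norm_exp_ofReal_mul_I _

theorem e_add (x y : ℝ) : e (x + y) = e x * e y := by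
  unfold e
  rw [← Complex.exp_add]
  congr 1
  push_cast
  ring

theorem e_zero : e 0 = 1 := by
  unfold e
  simp

theorem e_int (n : ℤ) : e (n : ℝ) = 1 := by
  unfold e
  rw [show (2 * Real.pi * ((n : ℝ) : ℂ) * Complex.I : ℂ) = n * (2 * Real.pi * Complex.I) by push_cast; ring]
  exact Complex.exp_int_mul_two_pi_mul_I n

theorem norm_e_sub_one (x : ℝ) : ‖e x - 1‖ = 2 * |Real.sin (Real.pi * x)| := by
  unfold e
  rw [show (2 * Real.pi * x * Complex.I : ℂ) = Complex.I * ((2 * Real.pi * x : ℝ) : ℂ) by push_cast; ring]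
  rw [Complex.norm_exp_I_mul_ofReal_sub_one, Real.norm_eq_abs, abs_mul, abs_two]
  congr 3
  ring

theorem norm_e_sub_one_le (x : ℝ) : ‖e x - 1‖ ≤ 2 * Real.pi * |x| := by
  rw [norm_e_sub_one]
  have h : |Real.sin (Real.pi * x)| ≤ |Real.pi * x| := Real.abs_sin_le_abs
  rw [abs_mul, abs_of_pos Real.pi_pos] at h
  linarith

theorem norm_e_sub_le (x y : ℝ) : ‖e x - e y‖ ≤ 2 * Real.pi * |x - y| := by
  have : e x - e y = e y * (e (x - y) - 1) := by
    rw [mul_sub, ← e_add, mul_one]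
    congr 2
    ring
  rw [this, norm_mul, norm_e, one_mul]
  exact norm_e_sub_one_le _

theorem le_norm_e_sub_one (β δ : ℝ) (hδ : 0 < δ) (h : ∀ n : ℤ, δ ≤ |β - n|) : 4 * δ ≤ ‖e β - 1‖ := by
  have h1 : e β = e (β - round β) := by
    have : β = (β - round β) + (round β : ℤ) := by ring
    conv_lhs => rw [this]
    rw [e_add, e_int, mul_one]
  rw [h1, norm_e_sub_one]
  have h2 := h (round β)
  have h3 := abs_sub_round β
  set t := β - round β
  have h4 : |Real.sin (Real.pi * t)| = Real.sin (Real.pi * |t|) := by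
    rcases le_or_gt 0 t with ht | ht
    · rw [abs_of_nonneg ht, abs_of_nonneg]
      rw [abs_of_nonneg ht] at h3
      apply Real.sin_nonneg_of_nonneg_of_le_pi (by positivity)
      nlinarith [Real.pi_pos]
    · rw [abs_of_neg ht, abs_of_nonpos, mul_neg, Real.sin_neg]
      rw [abs_of_neg ht] at h3
      apply Real.sin_nonpos_of_nonpos_of_neg_pi_le
      · nlinarith [Real.pi_pos]
      · nlinarith [Real.pi_pos]
  rw [h4]
  have h5 := Real.mul_le_sin (x := Real.pi * |t|) (by positivity) (by nlinarith [Real.pi_pos])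
  have h6 : 2 / Real.pi * (Real.pi * |t|) = 2 * |t| := by
    field_simp
  rw [h6] at h5
  linarith

/-- sums over intervals of integers as sums over naturals -/
theorem sum_Ico_int (a b : ℤ) (g : ℤ → ℂ) :
    ∑ k ∈ Ico a b, g k = ∑ j ∈ range (b - a).toNat, g (a + j) := by
  have : Ico a b = (range (b - a).toNat).map (Nat.castEmbedding.trans (addLeftEmbedding a)) := rfl
  rw [this, sum_map]
  rfl

theorem geom (β : ℝ) (a b : ℤ) (hab : a ≤ b) :
    (∑ k ∈ Ico a b, e (β * k)) * (e β - 1) = e (β * b) - e (β * a) := by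
  rw [sum_Ico_int]
  obtain ⟨m, hm⟩ := Int.eq_ofNat_of_zero_le (sub_nonneg.2 hab)
  have hb : b = a + m := by
    have : b - a = m := hm
    linarith
  rw [hb, add_sub_cancel_left, Int.toNat_natCast, sum_mul]
  have := sum_range_sub (fun j : ℕ => e (β * ((a + j : ℤ) : ℝ))) m
  simp only [Nat.cast_zero, add_zero] at this
  rw [← this]
  refine sum_congr rfl fun j _ => ?_
  rw [mul_sub, ← e_add, mul_one]
  congr 2
  push_cast
  ring

/-- Abel summation with a nonincreasing weight -/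
theorem abel_w (w : ℕ → ℝ) (S : ℕ → ℂ) (B : ℝ) (x0 : ℕ) (hw : ∀ n, x0 ≤ n → w (n + 1) ≤ w n)
    (hS : ∀ n, ‖S n‖ ≤ B) (h0 : S x0 = 0) (x : ℕ) (hx : x0 ≤ x) :
    ‖∑ n ∈ Ico x0 x, (w n : ℂ) * (S (n + 1) - S n) - w x * S x‖ ≤ B * (w x0 - w x) := by
  induction x, hx using Nat.le_induction with
  | base => simp [h0]
  | succ x hx ih =>
    rw [sum_Ico_succ_top hx]
    have e1 : ∑ n ∈ Ico x0 x, (w n : ℂ) * (S (n + 1) - S n) + (w x : ℂ) * (S (x + 1) - S x) -
        (w (x + 1) : ℝ) * S (x + 1) = (∑ n ∈ Ico x0 x, (w n : ℂ) * (S (n + 1) - S n) - w x * S x) +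
          ((w x - w (x + 1) : ℝ) : ℂ) * S (x + 1) := by
      push_cast
      ring
    rw [e1]
    refine (norm_add_le _ _).trans ?_
    rw [norm_mul, Complex.norm_real, Real.norm_eq_abs, abs_of_nonneg (sub_nonneg.2 (hw x hx))]
    have := mul_le_mul_of_nonneg_left (hS (x + 1)) (sub_nonneg.2 (hw x hx))
    nlinarith

theorem dl_pos (f : Polynomial ℤ) (n0 : ℕ) (C : ℝ) (h : Gr f n0 C) (n : ℕ) (hn : n0 ≤ n) :
    0 < (Dl f n : ℝ) ∧ (n : ℝ) ^ (f.natDegree - 1) ≤ Dl f n ∧ (Dl f n : ℝ) ≤ Dl f (n + 1) := by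
  obtain ⟨h1, -, -, h4, -⟩ := h
  have hn1 : (1 : ℝ) ≤ n := by exact_mod_cast h1.trans hn
  obtain ⟨h5, h6, -⟩ := h4 n hn
  have : (1 : ℝ) ≤ (n : ℝ) ^ (f.natDegree - 1) := one_le_pow₀ hn1
  exact ⟨by linarith, h5, by exact_mod_cast h6⟩

theorem fv_le (f : Polynomial ℤ) (n0 : ℕ) (C : ℝ) (h : Gr f n0 C) (n : ℕ) (hn : n0 ≤ n) :
    Fv f n ≤ Fv f (n + 1) := by
  have := (dl_pos f n0 C h n hn).1
  have h1 : 0 < Dl f n := by exact_mod_cast this
  unfold Dl at h1
  linarith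

theorem gvb : S_GVB := by
  intro f n0 C h x0 x hx0 hx β δ hδ hβ
  have hE : 4 * δ ≤ ‖e β - 1‖ := le_norm_e_sub_one β δ hδ hβ
  have hE0 : e β - 1 ≠ 0 := by
    intro h0
    rw [h0, norm_zero] at hE
    linarith
  set S : ℕ → ℂ := fun n => (e (β * (Fv f n : ℤ)) - e (β * (Fv f x0 : ℤ))) / (e β - 1) with hSdef
  have hS : ∀ n, ‖S n‖ ≤ 1 / (2 * δ) := by
    intro n
    rw [hSdef]
    simp only [norm_div]
    have h1 : ‖e (β * (Fv f n : ℤ)) - e (β * (Fv f x0 : ℤ))‖ ≤ 2 := by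
      refine (norm_sub_le _ _).trans ?_
      rw [norm_e, norm_e]
      norm_num
    calc _ ≤ 2 / (4 * δ) := div_le_div₀ (by norm_num) h1 (by positivity) hE
      _ = 1 / (2 * δ) := by
        field_simp
        ring
  have h0 : S x0 = 0 := by simp [hSdef]
  have hV : V f x0 x β = ∑ n ∈ Ico x0 x, ((1 / (Dl f n : ℝ) : ℝ) : ℂ) * (S (n + 1) - S n) := by
    unfold V
    refine sum_congr rfl fun n hn => ?_
    rw [mem_Ico] at hn
    congr 1
    have h2 := geom β (Fv f n) (Fv f (n + 1)) (fv_le f n0 C h n (hx0.trans hn.1))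
    rw [hSdef]
    simp only
    rw [← sub_div, eq_div_iff hE0, h2]
    ring
  have hw : ∀ n, x0 ≤ n → 1 / (Dl f (n + 1) : ℝ) ≤ 1 / (Dl f n : ℝ) := by
    intro n hn
    obtain ⟨h1, -, h3⟩ := dl_pos f n0 C h n (hx0.trans hn)
    exact one_div_le_one_div_of_le h1 h3
  have hA := abel_w (fun n => 1 / (Dl f n : ℝ)) S (1 / (2 * δ)) x0 hw hS h0 x hx
  rw [← hV] at hA
  have hx1 : 0 < (1 / (Dl f x : ℝ)) := by
    have := (dl_pos f n0 C h x (hx0.trans hx)).1
    positivity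
  have h7 : ‖V f x0 x β‖ ≤ 1 / (2 * δ) * (1 / (Dl f x0 : ℝ)) := by
    have h8 : ‖((1 / (Dl f x : ℝ) : ℝ) : ℂ) * S x‖ ≤ (1 / (Dl f x : ℝ)) * (1 / (2 * δ)) := by
      rw [norm_mul, Complex.norm_real, Real.norm_eq_abs, abs_of_pos hx1]
      exact mul_le_mul_of_nonneg_left (hS x) hx1.le
    have h9 : ‖V f x0 x β‖ ≤ ‖V f x0 x β - ((1 / (Dl f x : ℝ) : ℝ) : ℂ) * S x‖ +
        ‖((1 / (Dl f x : ℝ) : ℝ) : ℂ) * S x‖ := by
      have := norm_add_le (V f x0 x β - ((1 / (Dl f x : ℝ) : ℝ) : ℂ) * S x) (((1 / (Dl f x : ℝ) : ℝ) : ℂ) * S x)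
      rwa [sub_add_cancel] at this
    nlinarith
  obtain ⟨h10, h11, -⟩ := dl_pos f n0 C h x0 hx0
  have hx0' : (0 : ℝ) < (x0 : ℝ) ^ (f.natDegree - 1) := by
    have : 1 ≤ x0 := h.1.trans hx0
    positivity
  refine h7.trans ?_
  have h12 : 1 / (Dl f x0 : ℝ) ≤ 1 / (x0 : ℝ) ^ (f.natDegree - 1) := one_div_le_one_div_of_le hx0' h11
  have h13 : 1 / (2 * δ) ≤ 1 / δ := one_div_le_one_div_of_le hδ (by linarith)
  have h14 : 1 / ((x0 : ℝ) ^ (f.natDegree - 1) * δ) = 1 / δ * (1 / (x0 : ℝ) ^ (f.natDegree - 1)) := by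
    rw [one_div_mul_one_div, mul_comm]
  rw [h14]
  exact mul_le_mul h13 h12 (by positivity) (by positivity)

/-- Abel summation, the other way -/
theorem abel_g (A g : ℕ → ℂ) (B : ℝ) (x0 : ℕ) (hA : ∀ n, ‖A n‖ ≤ B) (h0 : A x0 = 0) (x : ℕ) (hx : x0 ≤ x) :
    ‖∑ n ∈ Ico x0 x, (A (n + 1) - A n) * g n - A x * g x‖ ≤ B * ∑ n ∈ Ico x0 x, ‖g (n + 1) - g n‖ := by
  induction x, hx using Nat.le_induction with
  | base => simp [h0]
  | succ x hx ih =>
    rw [sum_Ico_succ_top hx, sum_Ico_succ_top hx]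
    have e1 : ∑ n ∈ Ico x0 x, (A (n + 1) - A n) * g n + (A (x + 1) - A x) * g x - A (x + 1) * g (x + 1) =
        (∑ n ∈ Ico x0 x, (A (n + 1) - A n) * g n - A x * g x) - A (x + 1) * (g (x + 1) - g x) := by
      ring
    rw [e1]
    refine (norm_sub_le _ _).trans ?_
    rw [norm_mul]
    have := mul_le_mul_of_nonneg_right (hA (x + 1)) (norm_nonneg (g (x + 1) - g x))
    nlinarith

/-- partial sums of a periodic sequence of mean zero -/
theorem per_bound (q : ℕ) (hq : 1 ≤ q) (c : ℕ → ℂ) (hc : ∀ n, c (q + n) = c n) (hb : ∀ n, ‖c n‖ ≤ 2)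
    (hz : ∑ n ∈ range q, c n = 0) (n : ℕ) : ‖∑ m ∈ range n, c m‖ ≤ 2 * q := by
  induction n using Nat.strong_induction_on with
  | _ n ih =>
    rcases lt_or_ge n q with h | h
    · calc ‖∑ m ∈ range n, c m‖ ≤ ∑ m ∈ range n, ‖c m‖ := norm_sum_le _ _
        _ ≤ ∑ _m ∈ range n, (2 : ℝ) := sum_le_sum fun m _ => hb m
        _ = 2 * n := by simp [mul_comm]
        _ ≤ 2 * q := by
          have : (n : ℝ) ≤ q := by exact_mod_cast h.le
          linarith
    · obtain ⟨k, rfl⟩ := Nat.exists_eq_add_of_le h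
      rw [sum_range_add, hz, zero_add]
      simp only [hc]
      exact ih k (by omega)

theorem gmaj : S_GMAJ := by
  intro f n0 C h
  have hpi := Real.pi_pos
  have hC1 : 1 ≤ C := h.2.1
  refine ⟨4 + 10 * Real.pi * C, by positivity, ?_⟩
  intro x0 x q a hx0 hx hq β
  have hq0 : (0 : ℝ) < q := by exact_mod_cast hq
  have hqc : (q : ℂ) ≠ 0 := by exact_mod_cast hq0.ne'
  set g : ℕ → ℂ := fun n => e (β * (Fv f n : ℤ)) with hg
  set ch : ℕ → ℂ := fun n => e ((a : ℝ) * (Fv f n : ℤ) / q) with hch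
  set M : ℂ := G f a q / q with hM
  -- periodicity
  have hper : ∀ n, ch (q + n) = ch n := by
    intro n
    have hd : (q : ℤ) ∣ Fv f (q + n) - Fv f n := by
      have := Polynomial.sub_dvd_eval_sub (((q + n : ℕ) : ℤ)) ((n : ℤ)) f
      unfold Fv
      refine dvd_trans ?_ this
      push_cast
      simp
    obtain ⟨k, hk⟩ := hd
    have h1 : (a : ℝ) * (Fv f (q + n) : ℤ) / q = (a : ℝ) * (Fv f n : ℤ) / q + ((a * k : ℤ) : ℝ) := by
      have h2 : ((Fv f (q + n) : ℤ) : ℝ) = (Fv f n : ℤ) + q * k := by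
        have : (Fv f (q + n) : ℤ) = Fv f n + q * k := by linarith
        rw [this]
        push_cast
        ring
      rw [h2]
      push_cast
      field_simp
    rw [hch]
    simp only
    rw [h1, e_add, e_int, mul_one]
  have hGn : ‖G f a q‖ ≤ q := by
    unfold G
    refine (norm_sum_le _ _).trans ?_
    simp [norm_e]
  have hMn : ‖M‖ ≤ 1 := by
    rw [hM, norm_div, Complex.norm_natCast]
    exact (div_le_one hq0).2 hGn
  have hmz : ∑ n ∈ range q, (ch n - M) = 0 := by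
    rw [sum_sub_distrib, sum_const, card_range, nsmul_eq_mul, hM, mul_div_cancel₀ _ hqc]
    unfold G
    simp [hch]
  set P : ℕ → ℂ := fun n => ∑ m ∈ range n, (ch m - M) with hP
  have hPb : ∀ n, ‖P n‖ ≤ 2 * q := fun n =>
    per_bound q hq (fun n => ch n - M) (fun n => by simp only [hper]) (fun n => by
      refine (norm_sub_le _ _).trans ?_
      have : ‖ch n‖ = 1 := norm_e _
      linarith) hmz n
  have hab := abel_g (fun n => P n - P x0) g (4 * q) x0 (fun n => by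
    refine (norm_sub_le _ _).trans ?_
    linarith [hPb n, hPb x0]) (sub_self _) x hx
  -- the variation
  have hF : ∀ n, n0 ≤ n → (Dl f n : ℝ) = (Fv f (n + 1) : ℤ) - (Fv f n : ℤ) := by
    intro n _
    unfold Dl
    push_cast
    ring
  have hvar : ∑ n ∈ Ico x0 x, (Dl f n : ℝ) ≤ C * (x : ℝ) ^ f.natDegree := by
    have h1 : ∑ n ∈ Ico x0 x, (Dl f n : ℝ) = (Fv f x : ℤ) - (Fv f x0 : ℤ) := by
      rw [← sum_Ico_sub (fun n => ((Fv f n : ℤ) : ℝ)) hx]
      exact sum_congr rfl fun n hn => hF n (hx0.trans (mem_Ico.1 hn).1)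
    rw [h1]
    have h2 : (0 : ℝ) ≤ (Fv f x0 : ℤ) := by exact_mod_cast (h.2.2.2.1 x0 hx0).2.2
    have h3 := (h.2.2.2.2 x (h.1.trans (hx0.trans hx))).1
    have h4 := le_abs_self ((Fv f x : ℤ) : ℝ)
    linarith
  have hvg : ∑ n ∈ Ico x0 x, ‖g (n + 1) - g n‖ ≤ 2 * Real.pi * |β| * (C * (x : ℝ) ^ f.natDegree) := by
    calc ∑ n ∈ Ico x0 x, ‖g (n + 1) - g n‖ ≤ ∑ n ∈ Ico x0 x, 2 * Real.pi * |β| * (Dl f n : ℝ) := by
          refine sum_le_sum fun n hn => ?_
          have hn0 := hx0.trans (mem_Ico.1 hn).1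
          refine (norm_e_sub_le _ _).trans ?_
          rw [← mul_sub, abs_mul, ← hF n hn0, abs_of_pos (dl_pos f n0 C h n hn0).1]
          linarith
      _ = 2 * Real.pi * |β| * ∑ n ∈ Ico x0 x, (Dl f n : ℝ) := by rw [mul_sum]
      _ ≤ _ := mul_le_mul_of_nonneg_left hvar (by positivity)
  have hT : T f x0 x (a / q + β) = ∑ n ∈ Ico x0 x, ch n * g n := by
    unfold T
    refine sum_congr rfl fun n _ => ?_
    rw [hch, hg]
    simp only
    rw [← e_add]
    congr 1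
    field_simp
  have hsum : ∑ n ∈ Ico x0 x, (P (n + 1) - P x0 - (P n - P x0)) * g n =
      T f x0 x (a / q + β) - M * ∑ n ∈ Ico x0 x, g n := by
    rw [hT, mul_sum, ← sum_sub_distrib]
    refine sum_congr rfl fun n _ => ?_
    have : P (n + 1) = P n + (ch n - M) := by
      rw [hP]
      simp only
      rw [sum_range_succ]
    rw [this]
    ring
  rw [hsum] at hab
  -- comparison with `V`
  have hgV : ‖∑ n ∈ Ico x0 x, g n - V f x0 x β‖ ≤ 2 * Real.pi * |β| * (C * (x : ℝ) ^ f.natDegree) := by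
    have h1 : ∑ n ∈ Ico x0 x, g n - V f x0 x β = ∑ n ∈ Ico x0 x, ((1 / (Dl f n : ℝ) : ℝ) : ℂ) *
        ∑ k ∈ Ico (Fv f n) (Fv f (n + 1)), (g n - e (β * (k : ℤ))) := by
      unfold V
      rw [← sum_sub_distrib]
      refine sum_congr rfl fun n hn => ?_
      have hn0 := hx0.trans (mem_Ico.1 hn).1
      have hd := (dl_pos f n0 C h n hn0).1
      rw [sum_sub_distrib, mul_sub, sum_const, Int.card_Ico, nsmul_eq_mul]
      congr 1
      have h2 : (((Fv f (n + 1) - Fv f n).toNat : ℕ) : ℂ) = ((Dl f n : ℝ) : ℂ) := by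
        have h3 : ((Fv f (n + 1) - Fv f n).toNat : ℤ) = Dl f n := by
          unfold Dl
          exact Int.toNat_of_nonneg (sub_nonneg.2 (fv_le f n0 C h n hn0))
        have h4 : (((Fv f (n + 1) - Fv f n).toNat : ℕ) : ℂ) = (((Fv f (n + 1) - Fv f n).toNat : ℤ) : ℂ) := by
          push_cast
          rfl
        rw [h4, h3]
        push_cast
        rfl
      rw [h2, ← mul_assoc, ← Complex.ofReal_mul, one_div, inv_mul_cancel₀ hd.ne', Complex.ofReal_one, one_mul]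
    rw [h1]
    calc _ ≤ ∑ n ∈ Ico x0 x, ‖((1 / (Dl f n : ℝ) : ℝ) : ℂ) *
        ∑ k ∈ Ico (Fv f n) (Fv f (n + 1)), (g n - e (β * (k : ℤ)))‖ := norm_sum_le _ _
      _ ≤ ∑ n ∈ Ico x0 x, 2 * Real.pi * |β| * (Dl f n : ℝ) := by
        refine sum_le_sum fun n hn => ?_
        have hn0 := hx0.trans (mem_Ico.1 hn).1
        have hd := (dl_pos f n0 C h n hn0).1
        rw [norm_mul, Complex.norm_real, Real.norm_eq_abs, abs_of_pos (by positivity)]
        have h5 : ‖∑ k ∈ Ico (Fv f n) (Fv f (n + 1)), (g n - e (β * (k : ℤ)))‖ ≤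
            ∑ _k ∈ Ico (Fv f n) (Fv f (n + 1)), 2 * Real.pi * |β| * (Dl f n : ℝ) := by
          refine (norm_sum_le _ _).trans (sum_le_sum fun k hk => ?_)
          rw [mem_Ico] at hk
          refine (norm_e_sub_le _ _).trans ?_
          rw [← mul_sub, abs_mul]
          have h6 : |((Fv f n : ℤ) : ℝ) - (k : ℤ)| ≤ (Dl f n : ℝ) := by
            rw [hF n hn0, abs_le]
            have h7 : ((Fv f n : ℤ) : ℝ) ≤ (k : ℤ) := by exact_mod_cast hk.1
            have h8 : ((k : ℤ) : ℝ) ≤ (Fv f (n + 1) : ℤ) := by exact_mod_cast hk.2.le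
            constructor <;> linarith
          have := mul_le_mul_of_nonneg_left h6 (by positivity : 0 ≤ 2 * Real.pi * |β|)
          linarith
        rw [sum_const, Int.card_Ico, nsmul_eq_mul] at h5
        have h9 : (((Fv f (n + 1) - Fv f n).toNat : ℕ) : ℝ) = (Dl f n : ℝ) := by
          have h3 : ((Fv f (n + 1) - Fv f n).toNat : ℤ) = Dl f n := by
            unfold Dl
            exact Int.toNat_of_nonneg (sub_nonneg.2 (fv_le f n0 C h n hn0))
          exact_mod_cast h3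
        rw [h9] at h5
        calc 1 / (Dl f n : ℝ) * _ ≤ 1 / (Dl f n : ℝ) * ((Dl f n : ℝ) * (2 * Real.pi * |β| * (Dl f n : ℝ))) :=
              mul_le_mul_of_nonneg_left h5 (by positivity)
          _ = _ := by field_simp
      _ = 2 * Real.pi * |β| * ∑ n ∈ Ico x0 x, (Dl f n : ℝ) := by rw [mul_sum]
      _ ≤ _ := mul_le_mul_of_nonneg_left hvar (by positivity)
  -- the end
  have hgx : ‖(P x - P x0) * g x‖ ≤ 4 * q := by
    rw [norm_mul, hg]
    simp only
    rw [norm_e, mul_one]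
    refine (norm_sub_le _ _).trans ?_
    linarith [hPb x, hPb x0]
  have e1 : T f x0 x (a / q + β) - G f a q / q * V f x0 x β =
      (T f x0 x (a / q + β) - M * ∑ n ∈ Ico x0 x, g n - (P x - P x0) * g x) + (P x - P x0) * g x +
        M * (∑ n ∈ Ico x0 x, g n - V f x0 x β) := by
    rw [hM]
    ring
  rw [e1]
  have hX : 0 ≤ |β| * (x : ℝ) ^ f.natDegree := by positivity
  have hq1 : (1 : ℝ) ≤ q := by exact_mod_cast hq
  have n1 : ‖M * (∑ n ∈ Ico x0 x, g n - V f x0 x β)‖ ≤ 2 * Real.pi * |β| * (C * (x : ℝ) ^ f.natDegree) := by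
    rw [norm_mul]
    calc _ ≤ 1 * (2 * Real.pi * |β| * (C * (x : ℝ) ^ f.natDegree)) :=
          mul_le_mul hMn hgV (norm_nonneg _) zero_le_one
      _ = _ := one_mul _
  have n2 : 4 * (q : ℝ) * ∑ n ∈ Ico x0 x, ‖g (n + 1) - g n‖ ≤
      4 * q * (2 * Real.pi * |β| * (C * (x : ℝ) ^ f.natDegree)) :=
    mul_le_mul_of_nonneg_left hvg (by positivity)
  refine (norm_add_le _ _).trans ?_
  refine (add_le_add_left (norm_add_le _ _) _).trans ?_
  have n3 : 2 * Real.pi * |β| * (C * (x : ℝ) ^ f.natDegree) ≤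
      q * (2 * Real.pi * |β| * (C * (x : ℝ) ^ f.natDegree)) := by
    have : 0 ≤ 2 * Real.pi * |β| * (C * (x : ℝ) ^ f.natDegree) := by positivity
    nlinarith
  have n4 : (4 + 10 * Real.pi * C) * q * (1 + |β| * (x : ℝ) ^ f.natDegree) =
      4 * q + 10 * Real.pi * C * q + 4 * q * (|β| * (x : ℝ) ^ f.natDegree) +
        5 * (q * (2 * Real.pi * |β| * (C * (x : ℝ) ^ f.natDegree))) := by ring
  rw [n4]
  have n5 : 0 ≤ 10 * Real.pi * C * q := by positivity
  have n6 : 0 ≤ 4 * q * (|β| * (x : ℝ) ^ f.natDegree) := by positivity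
  linarith

end Pool.Agent.P8H5.GL
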